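import Pool.Agent.H40.JsRay

set_option autoImplicit false

namespace Pool.Agent.Results.MP_591233_lc.UnionFails

open Set Filter OnePoint Topology
open Pool.Agent.H40.Bspt Pool.Agent.H40.Jz Pool.Agent.H40.Js Pool.Agent.H40.Js.Ray

variable {M : Type} (E : M → M → Prop)

/-- `Z` is the intersection of a sequence of clopen subsets of `S` -/
def CDelta (S T Z : M) : Prop :=
  ∃ σ : Om E → M, Intl E σ ∧ (∀ n, Clopen E S T (σ n)) ∧ ∀ x, E x Z ↔ ∀ n, E x (σ n)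

def CEmb (S X T : M) : Prop :=
  ∀ Z, CDelta E S T Z → ∃ W, CDelta E X T W ∧ ∀ x, E x Z ↔ E x W ∧ E x S

theorem result : ∃ (M : Type) (E : M → M → Prop), IsZF E ∧ ∃ (Y T X : M) (S : Om E → M),
    IsTop E Y T ∧ Sub E X Y ∧ ZeroDim E X T ∧ T1 E X T ∧ Covers E S X ∧
      (∀ n, NCompact E (S n) T ∧ CEmb E (S n) X T) ∧ ¬ NCompact E X T := by
  obtain ⟨J⟩ := ex_js fx
  refine ⟨J.M, J.E, J.zf, J.sA unA, J.T, J.sA X, _, J.isTop, J.subA_iff.2 (subset_univ _),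
    J.zeroDim sb _, J.t1 sb _, covers J, fun n => ⟨J.nc_of_compact sb (K_closed _).isCompact, ?_⟩,
    J.not_nc sb bad⟩
  generalize J.omE.symm n = n
  rintro Z ⟨σ, -, h1, h2⟩
  choose C h3 h4 using fun k => J.subA (h1 k).1
  have h5 : ∀ D : Set A, ∀ g : G, (∀ x ∈ K n, g • x = x) → ∀ x,
      g • x ∈ r n ⁻¹' D ∩ X.1 ↔ x ∈ r n ⁻¹' D ∩ X.1 := fun D g a x => and_congr (by simp [r_inv a])
    (not_congr (by rw [mem_singleton_iff, mem_singleton_iff, smul_eq_iff_eq_inv_smul, gi]))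
  let τ : Set A → PS G A := fun D => ⟨_, (fixK n).mono (h5 D)⟩
  refine ⟨J.sA (τ (⋂ k, (C k).1)), ⟨_, J.intl_seq (t := .w .a) (σ := fun k => τ (C (J.omE k)).1)
    ((fixK n).mono fun g hg k => smul_eq (h5 _ g hg)), fun k => (J.clopen_iff sb).2
      ⟨inter_subset_right, ?_⟩, fun x => ⟨fun h k => J.subA_iff.2 (inter_subset_inter_left _
        (preimage_mono (iInter_subset _ _))) x h, fun h => ?_⟩⟩, fun x => ⟨fun h => ?_, fun h => ?_⟩⟩
  · rw [preimage_inter, Subtype.coe_preimage_self, inter_univ]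
    exact ((J.clopen_iff sb).1 (h4 _ ▸ h1 _)).2.preimage (f := fun x : X.1 => ⟨r n x, r_mem n x⟩)
      (((r_cont n).comp continuous_subtype_val).subtype_mk fun x => r_mem n x)
  · obtain ⟨x, hx, rfl⟩ := J.elA (h (J.omE 0))
    refine J.memA.2 ⟨mem_iInter.2 fun k => ?_, hx.2⟩
    simpa using (J.memA.1 (h k)).1
  · obtain ⟨x, hx, rfl⟩ := J.elA ((h1 (J.omE 0)).1 x ((h2 x).1 h _))
    refine ⟨J.memA.2 ⟨?_, KX n hx⟩, J.memA.2 hx⟩
    rw [mem_preimage, r_eq hx]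
    exact mem_iInter.2 fun k => J.memA.1 (h4 k ▸ (h2 _).1 h k)
  · obtain ⟨x, hx, rfl⟩ := J.elA h.2
    have := (J.memA.1 h.1).1
    rw [mem_preimage, r_eq hx] at this
    exact (h2 _).2 fun k => h4 k ▸ J.memA.2 (mem_iInter.1 this k)

end Pool.Agent.Results.MP_591233_lc.UnionFails
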